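import Pool.Agent.TH526.FM.Half

set_option autoImplicit false

/-! Asymptotic inequalities on the lines `Re s = 1/2 - y / log T`. -/

namespace Pool.Agent.TH526.FM

open MeasureTheory Filter Topology Pool.Agent.H306R2 Pool.Agent.W184

/-- mean value theorem for short Dirichlet polynomials to the left of `1/2` -/
theorem mv_DS' {g : ℕ → ℝ} (hg0 : ∀ n, 0 ≤ g n) (hg1 : ∀ n, g n ≤ 1) {σ c : ℝ} (hc : 0 < c)
    (N : ℕ) (hN : ∀ n : ℕ, 1 ≤ n → n ≤ N → (n:ℝ) ^ (1 / 2 - σ) ≤ c) (A B : ℝ) :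
    |(∫ t in A..B, ‖DS g N ((σ : ℂ) + t * Complex.I)‖ ^ 2) -
      (B - A) * ∑ n ∈ Finset.Icc 1 N, g n ^ 2 * (n : ℝ) ^ (-(2 * σ))| ≤
        c ^ 2 * (6 * N * (1 + Real.log N)) := by
  set a : ℕ → ℝ := fun n => if n ≤ N then g n * (n : ℝ) ^ (-σ) / c else 0 with ha
  have ha1 : ∀ n ∈ Finset.Icc 1 N, g n * (n : ℝ) ^ (-σ) = c * a n := by
    intro n hn
    rw [Finset.mem_Icc] at hn
    simp only [ha]
    rw [if_pos hn.2]
    field_simp
  have h := mv_cos (a := a) (fun n => ?_) (fun n hn => ?_) N A B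
  · have e1 : (∫ t in A..B, ‖DS g N ((σ : ℂ) + t * Complex.I)‖ ^ 2) =
        c ^ 2 * ∫ t in A..B, ∑ m ∈ Finset.Icc 1 N, ∑ n ∈ Finset.Icc 1 N, a m * a n *
          Real.cos (t * (Real.log m - Real.log n)) := by
      rw [← intervalIntegral.integral_const_mul]
      refine intervalIntegral.integral_congr fun t _ => ?_
      rw [DS_norm_sq, Finset.mul_sum]
      refine Finset.sum_congr rfl fun m hm => ?_
      rw [Finset.mul_sum]
      refine Finset.sum_congr rfl fun n hn => ?_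
      rw [ha1 m hm, ha1 n hn]
      ring
    have e2 : ∑ n ∈ Finset.Icc 1 N, g n ^ 2 * (n : ℝ) ^ (-(2 * σ)) =
        c ^ 2 * ∑ n ∈ Finset.Icc 1 N, a n ^ 2 := by
      rw [Finset.mul_sum]
      refine Finset.sum_congr rfl fun n hn => ?_
      rw [← mul_pow, ← ha1 n hn, mul_pow, ← Real.rpow_natCast ((n:ℝ) ^ (-σ)),
        ← Real.rpow_mul (Nat.cast_nonneg n)]
      congr 2
      push_cast; ring
    rw [e1, e2, show c ^ 2 * (∫ t in A..B, ∑ m ∈ Finset.Icc 1 N, ∑ n ∈ Finset.Icc 1 N, a m * a n *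
          Real.cos (t * (Real.log m - Real.log n))) - (B - A) * (c ^ 2 * ∑ n ∈ Finset.Icc 1 N, a n ^ 2) =
        c ^ 2 * ((∫ t in A..B, ∑ m ∈ Finset.Icc 1 N, ∑ n ∈ Finset.Icc 1 N, a m * a n *
          Real.cos (t * (Real.log m - Real.log n))) - (B - A) * ∑ n ∈ Finset.Icc 1 N, a n ^ 2) by ring,
      abs_mul, abs_of_nonneg (by positivity)]
    exact mul_le_mul_of_nonneg_left h (by positivity)
  · simp only [ha]
    split_ifs
    · have := hg0 n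
      positivity
    · exact le_rfl
  · simp only [ha]
    have hn0 : (0:ℝ) < n := by exact_mod_cast hn
    split_ifs with hnN
    · have h1 : g n * (n:ℝ) ^ (-σ) / c ≤ (n:ℝ) ^ (-(1/2):ℝ) := by
        rw [div_le_iff₀ hc]
        have h2 : (n:ℝ) ^ (-σ) = (n:ℝ) ^ (-(1/2):ℝ) * (n:ℝ) ^ (1 / 2 - σ) := by
          rw [← Real.rpow_add hn0]; congr 1; ring
        have h3 := hN n hn hnN
        have h4 : (0:ℝ) < (n:ℝ) ^ (-(1/2):ℝ) := Real.rpow_pos_of_pos hn0 _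
        have h5 : (0:ℝ) < (n:ℝ) ^ (-σ) := Real.rpow_pos_of_pos hn0 _
        calc g n * (n:ℝ) ^ (-σ) ≤ 1 * (n:ℝ) ^ (-σ) := mul_le_mul_of_nonneg_right (hg1 n) h5.le
          _ = (n:ℝ) ^ (-(1/2):ℝ) * (n:ℝ) ^ (1 / 2 - σ) := by rw [one_mul, h2]
          _ ≤ _ := mul_le_mul_of_nonneg_left h3 h4.le
      have h0 : 0 ≤ g n * (n:ℝ) ^ (-σ) / c := by
        have := hg0 n
        positivity
      calc (g n * (n:ℝ) ^ (-σ) / c) ^ 2 ≤ ((n:ℝ) ^ (-(1/2):ℝ)) ^ 2 := pow_le_pow_left₀ h0 h1 2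
        _ = 1 / n := by
          rw [← Real.rpow_natCast, ← Real.rpow_mul hn0.le]
          norm_num
          exact Real.rpow_neg_one _
    · rw [zero_pow two_ne_zero]
      positivity

section

variable {v : ℕ}

lemma pow_le_exp {T y : ℝ} (hT : 1 < T) (hy : 0 ≤ y) {N : ℕ} (hN : (N:ℝ) ≤ T) :
    ∀ n : ℕ, 1 ≤ n → n ≤ N → (n:ℝ) ^ (1 / 2 - (1 / 2 + -y / Real.log T)) ≤ Real.exp y := by
  intro n hn hnN
  have hL := Real.log_pos hT
  have hn0 : (0:ℝ) < n := by exact_mod_cast hn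
  have hnT : (n:ℝ) ≤ T := le_trans (by exact_mod_cast hnN) hN
  rw [show (1 / 2 - (1 / 2 + -y / Real.log T)) = y / Real.log T by ring, Real.rpow_def_of_pos hn0]
  refine Real.exp_le_exp.mpr ?_
  have h1 : Real.log n ≤ Real.log T := Real.log_le_log hn0 hnT
  calc Real.log n * (y / Real.log T) ≤ Real.log T * (y / Real.log T) :=
        mul_le_mul_of_nonneg_right h1 (by positivity)
    _ = y := by field_simp

lemma sn_mvN (hv : 2 ≤ v) {T y : ℝ} (hT : 1 < T) (hy : 0 ≤ y) (hN : (NT T : ℝ) ≤ T) (A B : ℝ) :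
    |(∫ t in A..B, sn v T (1 / 2 + -y / Real.log T) t) - (B - A) * ∑ n ∈ Finset.Icc 1 (NT T),
      dv (1 / (v:ℝ)) n ^ 2 * (n : ℝ) ^ (-(2 * (1 / 2 + -y / Real.log T)))| ≤
      Real.exp y ^ 2 * (6 * ((NT T : ℝ) * (1 + Real.log (NT T)))) := by
  obtain ⟨h1, h2, -, -⟩ := kv hv
  have := mv_DS' (g := dv (1 / (v:ℝ))) (fun n => dv_nonneg h1.le n) (fun n => dv_le_one h1.le h2 n)
    (Real.exp_pos y) (NT T) (pow_le_exp hT hy hN) A B
  rw [show 6 * ((NT T : ℝ) * (1 + Real.log (NT T))) = 6 * (NT T : ℝ) * (1 + Real.log (NT T)) by ring]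
  exact this

lemma S_evN (hv : 2 ≤ v) {y : ℝ} (hy : 0 ≤ y) {η : ℝ} (hη : 0 < η) :
    ∀ᶠ T : ℝ in atTop, (∫ t in (0:ℝ)..T, sn v T (1 / 2 + -y / Real.log T) t) ≤
        (aF (1 / (v:ℝ)) * gI (1 / (v:ℝ)) (-y) + η) * MM v T := by
  obtain ⟨h1, h2, -, -⟩ := kv hv
  have hc := coef_tendsto (κ := 1 / (v:ℝ)) (δ := -y) h1
  have e1 := hc.eventually_lt_const (show aF (1 / (v:ℝ)) * gI (1 / (v:ℝ)) (-y) <
    aF (1 / (v:ℝ)) * gI (1 / (v:ℝ)) (-y) + η / 2 by linarith)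
  have e3 := CT_le (v := v) (by omega) (Real.exp y ^ 2 * 6) (show 0 < η / 2 by linarith)
  filter_upwards [e1, e3, NT_ev, eventually_gt_atTop 1] with T a1 a3 a4 a5
  have hL := Real.log_pos a5
  have hLp : 0 < Real.log T ^ ((1 / (v:ℝ)) ^ 2) := by positivity
  rw [div_lt_iff₀ hLp] at a1
  have hm := (abs_le.mp (sn_mvN hv a5 hy a4.2.2 0 T)).2
  rw [sub_zero] at hm
  have hT0 : 0 < T := by linarith
  set W := ∑ n ∈ Finset.Icc 1 (NT T), dv (1 / (v:ℝ)) n ^ 2 * (n : ℝ) ^ (-(2 * (1 / 2 + -y / Real.log T)))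
  have h6 : Real.exp y ^ 2 * (6 * ((NT T : ℝ) * (1 + Real.log (NT T)))) ≤ Real.exp y ^ 2 * 6 * T := by
    rw [mul_assoc]
    refine mul_le_mul_of_nonneg_left ?_ (by positivity)
    linarith [a4.2.1]
  unfold MM at a3 ⊢
  nlinarith [mul_lt_mul_of_pos_left a1 hT0]

lemma edges_snN (hv : 2 ≤ v) {y : ℝ} (hy : 0 ≤ y) : ∀ᶠ T : ℝ in atTop,
    (∫ t in (-(T ^ ((1:ℝ)/4)))..0, sn v T (1 / 2 + -y / Real.log T) t) +
      ∫ t in T..(T + T ^ ((1:ℝ)/4)), sn v T (1 / 2 + -y / Real.log T) t ≤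
      14 * Real.exp y ^ 2 * T := by
  obtain ⟨h1, h2, -, -⟩ := kv hv
  have h4 := small_pow (1 / 4 - 1) 1 2 (by norm_num)
  filter_upwards [NT_ev, h4, eventually_gt_atTop (Real.exp 1)] with T a1 a2 a3
  have hT1 : 1 < T := lt_trans (by
    have := Real.add_one_lt_exp (show (1:ℝ) ≠ 0 by norm_num)
    linarith) a3
  have hT0 : 0 < T := by linarith
  have hlog : 1 ≤ Real.log T := by
    rw [Real.le_log_iff_exp_le hT0]; exact a3.le
  have hN0 : (0:ℝ) < NT T := by exact_mod_cast a1.1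
  have hey : 0 < Real.exp y := Real.exp_pos y
  have hs : ∑ n ∈ Finset.Icc 1 (NT T), dv (1 / (v:ℝ)) n ^ 2 *
      (n : ℝ) ^ (-(2 * (1 / 2 + -y / Real.log T))) ≤ Real.exp y ^ 2 * (1 + Real.log (NT T)) := by
    have h10 : ∑ n ∈ Finset.Icc 1 (NT T), dv (1 / (v:ℝ)) n ^ 2 *
      (n : ℝ) ^ (-(2 * (1 / 2 + -y / Real.log T))) ≤ ∑ n ∈ Finset.Icc 1 (NT T),
        Real.exp y ^ 2 * (1 / (n:ℝ)) := by
      refine Finset.sum_le_sum fun n hn => ?_
      rw [Finset.mem_Icc] at hn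
      have hn0 : (0:ℝ) < n := by exact_mod_cast hn.1
      have h5 : dv (1 / (v:ℝ)) n ^ 2 ≤ 1 := pow_le_one₀ (dv_nonneg h1.le n) (dv_le_one h1.le h2 n)
      have h6 := pow_le_exp hT1 hy a1.2.2 n hn.1 hn.2
      have h7 : (n : ℝ) ^ (-(2 * (1 / 2 + -y / Real.log T))) =
          ((n:ℝ) ^ (1 / 2 - (1 / 2 + -y / Real.log T))) ^ 2 * (1 / (n:ℝ)) := by
        have h12 : (1 / (n:ℝ)) = (n:ℝ) ^ (-1:ℝ) := by rw [Real.rpow_neg_one, one_div]
        rw [← Real.rpow_natCast, ← Real.rpow_mul hn0.le, h12, ← Real.rpow_add hn0]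
        congr 1
        push_cast; ring
      rw [h7]
      have h8 : ((n:ℝ) ^ (1 / 2 - (1 / 2 + -y / Real.log T))) ^ 2 ≤ Real.exp y ^ 2 :=
        pow_le_pow_left₀ (by positivity) h6 2
      have h9 : 0 ≤ ((n:ℝ) ^ (1 / 2 - (1 / 2 + -y / Real.log T))) ^ 2 * (1 / (n:ℝ)) := by positivity
      calc dv (1 / (v:ℝ)) n ^ 2 * (((n:ℝ) ^ (1 / 2 - (1 / 2 + -y / Real.log T))) ^ 2 * (1 / (n:ℝ))) ≤
          1 * (((n:ℝ) ^ (1 / 2 - (1 / 2 + -y / Real.log T))) ^ 2 * (1 / (n:ℝ))) :=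
            mul_le_mul_of_nonneg_right h5 h9
        _ ≤ _ := by
          rw [one_mul]
          exact mul_le_mul_of_nonneg_right h8 (by positivity)
    refine h10.trans ?_
    rw [← Finset.mul_sum]
    exact mul_le_mul_of_nonneg_left (harm_le (NT T)) (by positivity)
  have hU : T ^ ((1:ℝ)/4) * (1 + Real.log (NT T)) ≤ T := by
    have h6 : Real.log (NT T) ≤ Real.log T := Real.log_le_log hN0 a1.2.2
    have h7 : T ^ ((1:ℝ)/4) * (2 * Real.log T) ≤ T := by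
      have h8 : T ^ ((1:ℝ)/4) = T ^ ((1:ℝ)/4 - 1) * T := by
        rw [← Real.rpow_add_one hT0.ne']; congr 1; ring
      rw [Real.rpow_one] at a2
      rw [h8]
      calc T ^ ((1:ℝ)/4 - 1) * T * (2 * Real.log T) = (2 * (T ^ ((1:ℝ)/4 - 1) * Real.log T)) * T := by ring
        _ ≤ 1 * T := mul_le_mul_of_nonneg_right a2 hT0.le
        _ = T := one_mul T
    refine le_trans (mul_le_mul_of_nonneg_left ?_ (by positivity)) h7
    linarith
  have hU0 : 0 < T ^ ((1:ℝ)/4) := Real.rpow_pos_of_pos hT0 _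
  have m1 := (abs_le.mp (sn_mvN hv hT1 hy a1.2.2 (-(T ^ ((1:ℝ)/4))) 0)).2
  have m2 := (abs_le.mp (sn_mvN hv hT1 hy a1.2.2 T (T + T ^ ((1:ℝ)/4)))).2
  rw [show 0 - -(T ^ ((1:ℝ)/4)) = T ^ ((1:ℝ)/4) by ring] at m1
  rw [show T + T ^ ((1:ℝ)/4) - T = T ^ ((1:ℝ)/4) by ring] at m2
  have h9 := mul_le_mul_of_nonneg_left hs hU0.le
  have h10 : T ^ ((1:ℝ)/4) * (Real.exp y ^ 2 * (1 + Real.log (NT T))) ≤ Real.exp y ^ 2 * T := by
    calc T ^ ((1:ℝ)/4) * (Real.exp y ^ 2 * (1 + Real.log (NT T))) =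
        Real.exp y ^ 2 * (T ^ ((1:ℝ)/4) * (1 + Real.log (NT T))) := by ring
      _ ≤ _ := mul_le_mul_of_nonneg_left hU (by positivity)
  have h11 : Real.exp y ^ 2 * (6 * ((NT T : ℝ) * (1 + Real.log (NT T)))) ≤
      Real.exp y ^ 2 * (6 * T) := by
    refine mul_le_mul_of_nonneg_left ?_ (by positivity)
    linarith [a1.2.1]
  linarith

theorem half_ev_SG (hv : 2 ≤ v) {x y : ℝ} (hy : 0 ≤ y) (hx : 0 < x) {η : ℝ} (hη : 0 < η) :
    ∀ᶠ T : ℝ in atTop, ∫ t in (0:ℝ)..T, qn (QQ v T) (2 / (v:ℝ)) (1 / 2 + x / Real.log T) t ≤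
      (Real.exp (-(2 / (v:ℝ) * (x + y))) + η) *
        ((∫ t in (0:ℝ)..T, qn (QQ v T) (2 / (v:ℝ)) (1 / 2 + -y / Real.log T) t) + η * MM v T) := by
  obtain ⟨h1, h2, h3, h4⟩ := kv hv
  have hv0 : (0:ℝ) < v := by exact_mod_cast (by omega : 0 < v)
  have hf0 : ∀ᶠ T : ℝ in atTop, (0:ℝ) < NT T := by
    filter_upwards [NT_ev] with T hT
    exact_mod_cast hT.1
  set δ : ℝ := x + y with hδd
  have hδ : 0 < δ := by rw [hδd]; linarith
  have hF := fac_tendsto (2 / (v:ℝ)) δ (8 * v) h3 (fun T => (NT T : ℝ)) 1 hf0 logN_tendsto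
  rw [mul_one] at hF
  have hΔ1 : ∀ᶠ T : ℝ in atTop, δ / Real.log T ≤ 1 / 8 :=
    ((delta_tendsto δ).eventually (gt_mem_nhds (show (0:ℝ) < 1/8 by norm_num))).mono fun _ h => h.le
  have hΔ2 : ∀ᶠ T : ℝ in atTop, y / Real.log T ≤ 1 / 8 :=
    ((delta_tendsto y).eventually (gt_mem_nhds (show (0:ℝ) < 1/8 by norm_num))).mono fun _ h => h.le
  have hCT := CT_le (v := v) (by omega) (73 + 14 * Real.exp y ^ 2) hη
  have hsm := small_pow (4 - 29 / 4) 1 (26 * (2 * Real.pi * (1 / δ))) (by norm_num)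
  have hev : ∀ᶠ T : ℝ in atTop, ((1 - 8 * (δ / Real.log T)) * (NT T : ℝ) ^ (δ / Real.log T) /
      (1 + δ / Real.log T) ^ (2 * (8 * v))) ^ (2 / (v:ℝ)) *
        (∫ t in (0:ℝ)..T, qn (QQ v T) (2 / (v:ℝ)) (1 / 2 + x / Real.log T) t) ≤
      (∫ t in (0:ℝ)..T, qn (QQ v T) (2 / (v:ℝ)) (1 / 2 + -y / Real.log T) t) + η * MM v T := by
    filter_upwards [hΔ1, hΔ2, hCT, hsm, edges_snN hv hy, NT_ev, eventually_gt_atTop 1] with T a1 a1' a2 a3 a4 a5 a6
    have hT0 : 0 < T := by linarith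
    have hL := Real.log_pos a6
    have hΔ0 : 0 < δ / Real.log T := by positivity
    have hy0 : 0 ≤ y / Real.log T := by positivity
    have hN1 : (1:ℝ) ≤ NT T := by exact_mod_cast a5.1
    have hU0 : 0 < T ^ ((1:ℝ)/4) := Real.rpow_pos_of_pos hT0 _
    set b : ℝ := 1 / 2 + -y / Real.log T with hb
    have hbe : b = 1 / 2 - y / Real.log T := by rw [hb]; ring
    have hb0 : 3 / 8 ≤ b := by rw [hbe]; linarith
    have hb1 : b ≤ 1 / 2 := by rw [hbe]; linarith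
    have hbx : 1 / 2 + x / Real.log T = b + δ / Real.log T := by rw [hbe, hδd]; ring
    have hcz := zp_cont (σ := b) (p := 2 / (v:ℝ)) (by linarith) h3
    have hcs := sn_cont (v := v) T b
    have hcq := qn_cont (QQ_diff (v := v) T) (p := 2 / (v:ℝ)) (σ := b) h3 (by linarith)
    have hGB : ∀ x, qn (QQ v T) (2 / (v:ℝ)) b x ≤ (12 + T ^ 2) * (1 + |x|) := by
      intro x
      have b1 := tri2 hv T b x
      have b2 := zp_le (x := x) h3 h4 (σ := b) hb0 (by linarith)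
      have b3 : sn v T b x ≤ T ^ 2 := by
        unfold sn
        refine pow_le_pow_left₀ (norm_nonneg _) ?_ 2
        refine (SS_le hv T ?_).trans a5.2.2
        simp
        linarith
      have b4 : 0 ≤ T ^ 2 * |x| := by positivity
      nlinarith
    have hE : (∫ t in (-(T ^ ((1:ℝ)/4)))..0, qn (QQ v T) (2 / (v:ℝ)) b t) +
      ∫ t in T..(T + T ^ ((1:ℝ)/4)), qn (QQ v T) (2 / (v:ℝ)) b t ≤ (72 + 14 * Real.exp y ^ 2) * T := by
      have b1 := int_add_le hcq hcz hcs (a := -(T ^ ((1:ℝ)/4))) (b := 0) (by linarith)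
        (tri2 hv T b)
      have b2 := int_add_le hcq hcz hcs (a := T) (b := T + T ^ ((1:ℝ)/4)) (by linarith)
        (tri2 hv T b)
      have b3 := edges_zp (p := 2 / (v:ℝ)) (σ := b) h3 h4 hb0 (by linarith) a6.le
      linarith
    have hM : (((8 * v : ℕ)) : ℝ) * (2 / (v:ℝ)) = 16 := by push_cast; field_simp; norm_num
    have hQ1 : ∀ z : ℂ, 3 / 8 ≤ z.re → z.re ≤ 2 → ‖QQ v T z‖ ≤ (NT T : ℝ) ^ v := by
      intro z hz _
      unfold QQ
      rw [norm_pow]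
      exact pow_le_pow_left₀ (norm_nonneg _) (SS_le hv T (by linarith)) v
    have hQ2 : ∀ z : ℂ, 2 ≤ z.re → ‖riemannZeta z - QQ v T z‖ * (NT T : ℝ) ^ z.re ≤
        (NT T:ℝ) ^ 2 * ∑' n : ℕ, 1 / (n : ℝ) ^ 2 := by
      intro z hz
      exact zeta_sub_pow_le (by omega) a5.1 hz
    have hmain := half_fixG (T := T) h3 hN1 (show 1 ≤ 8 * v by omega) hM (QQ_diff T) hQ1 hQ2 hb0 hb1
      hΔ0 a1 a6.le (by positivity) hGB hE
    rw [hbx]
    refine hmain.trans ?_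
    have htail : T * ((12 + T ^ 2) * (1 + T)) * (2 * Real.pi * (1 / (δ / Real.log T)) *
        (T ^ ((1:ℝ)/4)) ^ (-(29:ℝ))) ≤ T := by
      have b2 : (T ^ ((1:ℝ)/4)) ^ (-(29:ℝ)) = T ^ (-(29/4:ℝ)) := by
        rw [← Real.rpow_mul hT0.le]; norm_num
      have b3 : T * ((12 + T ^ 2) * (1 + T)) ≤ 26 * T ^ (4:ℝ) := by
        have : T ^ (4:ℝ) = T ^ 4 := by exact_mod_cast Real.rpow_natCast T 4
        rw [this]
        have c0 : 1 ≤ T ^ 2 := one_le_pow₀ a6.le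
        have c1 : 1 + T ≤ 2 * T := by linarith
        have c2 : 12 + T ^ 2 ≤ 13 * T ^ 2 := by linarith
        calc T * ((12 + T ^ 2) * (1 + T)) ≤ T * ((13 * T ^ 2) * (2 * T)) := by gcongr
          _ = 26 * T ^ 4 := by ring
      have b4 : T ^ (4:ℝ) * T ^ (-(29/4:ℝ)) = T ^ (4 - 29 / 4 : ℝ) := by
        rw [← Real.rpow_add hT0]; congr 1
      rw [b2]
      have hpi := Real.pi_pos
      calc T * ((12 + T ^ 2) * (1 + T)) * (2 * Real.pi * (1 / (δ / Real.log T)) * T ^ (-(29/4:ℝ))) ≤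
          (26 * T ^ (4:ℝ)) * (2 * Real.pi * (1 / (δ / Real.log T)) * T ^ (-(29/4:ℝ))) := by
            gcongr
        _ = 26 * (2 * Real.pi * (1 / δ)) * (T ^ (4 - 29 / 4 : ℝ) * Real.log T ^ (1:ℝ)) := by
            rw [← b4, Real.rpow_one]
            field_simp
        _ ≤ 1 := a3
        _ ≤ T := a6.le
    linarith
  have hD0 : ∀ᶠ T : ℝ in atTop, 0 ≤
      ∫ t in (0:ℝ)..T, qn (QQ v T) (2 / (v:ℝ)) (1 / 2 + -y / Real.log T) t := by
    filter_upwards [eventually_ge_atTop 0] with T hT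
    exact intervalIntegral.integral_nonneg hT fun x _ => qn_nonneg _ _ _ _
  have := turn (v := v) (Real.exp_pos _) hη hF hev hD0
  rw [← Real.exp_neg] at this
  exact this

/-- functional equation, integrated -/
theorem fe_ev (hv : 2 ≤ v) {y : ℝ} (hy : 0 ≤ y) {η : ℝ} (hη : 0 < η) :
    ∀ᶠ T : ℝ in atTop, ∫ t in (0:ℝ)..T, zn (1 / 2 + -y / Real.log T) t ^ (2 / (v:ℝ)) ≤
      Real.exp (2 / (v:ℝ) * y) *
        ((∫ t in (0:ℝ)..T, zn (1 / 2 + y / Real.log T) t ^ (2 / (v:ℝ))) + η * MM v T) := by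
  obtain ⟨h1, h2, h3, h4⟩ := kv hv
  have hΔ2 : ∀ᶠ T : ℝ in atTop, y / Real.log T ≤ 1 / 8 :=
    ((delta_tendsto y).eventually (gt_mem_nhds (show (0:ℝ) < 1/8 by norm_num))).mono fun _ h => h.le
  have hCT := CT_le (v := v) (by omega) 2000 hη
  filter_upwards [hΔ2, hCT, eventually_gt_atTop 1] with T a1 a2 a3
  have hT0 : 0 < T := by linarith
  have hL := Real.log_pos a3
  have hy0 : 0 ≤ y / Real.log T := by positivity
  set p : ℝ := 2 / (v:ℝ) with hp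
  have e0 : 1 / 2 + -y / Real.log T = 1 / 2 - y / Real.log T := by ring
  rw [e0]
  have eT : T ^ (p * (y / Real.log T)) = Real.exp (p * y) := by
    rw [Real.rpow_def_of_pos hT0]
    congr 1
    field_simp
  have hc1 := zp_cont (σ := 1 / 2 + y / Real.log T) (p := p) (by linarith) h3
  have hc2 := zp_cont (σ := 1 / 2 - y / Real.log T) (p := p) (by linarith) h3
  have hpt : ∀ t ∈ Set.Icc (0:ℝ) T, zn (1 / 2 - y / Real.log T) t ^ p ≤
      Real.exp (p * y) * (zn (1 / 2 + y / Real.log T) t ^ p + 2000) := by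
    intro t ht
    have := fe_p (Δ := y / Real.log T) (τ := t) (p := p) (X := T) h3 h4 hy0 a1 a3.le
      (by rw [abs_of_nonneg ht.1]; exact ht.2)
    rwa [eT] at this
  calc ∫ t in (0:ℝ)..T, zn (1 / 2 - y / Real.log T) t ^ p ≤
      ∫ t in (0:ℝ)..T, Real.exp (p * y) * (zn (1 / 2 + y / Real.log T) t ^ p + 2000) :=
        intervalIntegral.integral_mono_on hT0.le (hc2.intervalIntegrable _ _)
          ((continuous_const.mul (hc1.add continuous_const)).intervalIntegrable _ _) hpt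
    _ = Real.exp (p * y) * ((∫ t in (0:ℝ)..T, zn (1 / 2 + y / Real.log T) t ^ p) + 2000 * T) := by
        rw [intervalIntegral.integral_const_mul, intervalIntegral.integral_add
          (hc1.intervalIntegrable _ _) intervalIntegrable_const, intervalIntegral.integral_const,
          smul_eq_mul]
        ring
    _ ≤ _ := mul_le_mul_of_nonneg_left (by linarith) (Real.exp_pos _).le

end

end Pool.Agent.TH526.FM
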