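import Pool.Agent.W184.Close

set_option autoImplicit false

/-! The half-plane inequality for `ζ - Q` started on a line `Re s = b` with `3/8 ≤ b ≤ 1/2`. -/

namespace Pool.Agent.TH526.FM

open MeasureTheory Set Complex Pool.Agent.H306R2 Pool.Agent.W184

lemma Zt_le {s : ℂ} (hs : 3 / 8 ≤ s.re) : ‖Zt s‖ ≤ 4 * (‖s‖ + 1) ^ 2 := by
  have hs0 : 0 < s.re := by linarith
  have h1 := Hf_norm_le hs0
  have h2 : 1 / s.re ≤ 8 / 3 := by
    rw [div_le_iff₀ hs0]; linarith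
  have h3 : ‖s - 1‖ ≤ ‖s‖ + 1 := by
    have := norm_sub_le s 1
    rwa [norm_one] at this
  unfold Zt
  calc ‖s - s * (s - 1) * Hf s‖ ≤ ‖s‖ + ‖s * (s - 1) * Hf s‖ := norm_sub_le _ _
    _ = ‖s‖ + ‖s‖ * ‖s - 1‖ * ‖Hf s‖ := by rw [norm_mul, norm_mul]
    _ ≤ ‖s‖ + ‖s‖ * (‖s‖ + 1) * (8 / 3) := by gcongr; exact h1.trans h2
    _ ≤ 4 * (‖s‖ + 1) ^ 2 := by nlinarith [norm_nonneg s]

lemma norm_ratio_b {b x : ℝ} (hb : b < 1) :
    ‖((b : ℂ) + x * I - 1) / ((b : ℂ) + x * I + 1 - 2 * b)‖ = 1 := by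
  rw [norm_div]
  have h1 : (b : ℂ) + x * I + 1 - 2 * b ≠ 0 := by
    intro h
    have := congrArg Complex.re h
    simp at this
    linarith
  have h2 : ‖(b : ℂ) + x * I - 1‖ = ‖(b : ℂ) + x * I + 1 - 2 * b‖ := by
    have e : (b : ℂ) + x * I - 1 = -(starRingEnd ℂ) ((b : ℂ) + x * I + 1 - 2 * b) := by
      rw [map_sub, map_add, map_add, map_mul, map_mul, Complex.conj_ofReal, Complex.conj_ofReal,
        Complex.conj_I, map_one, Complex.conj_ofNat]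
      ring
    rw [e, norm_neg, RCLike.norm_conj]
  rw [h2, div_self (norm_ne_zero_iff.mpr h1)]

lemma norm_ratio_ge_b {b Δ t : ℝ} (hb : b ≤ 1 / 2) (h0 : 0 ≤ Δ) (h1 : 8 * Δ ≤ 1) :
    1 - 8 * Δ ≤ ‖((b : ℂ) + Δ + t * I - 1) / ((b : ℂ) + Δ + t * I + 1 - 2 * b)‖ := by
  have e1 : ‖(b : ℂ) + Δ + t * I - 1‖ ^ 2 = (1 - b - Δ) ^ 2 + t ^ 2 := by
    rw [Complex.sq_norm, Complex.normSq_apply]
    simp
    ring
  have e2 : ‖(b : ℂ) + Δ + t * I + 1 - 2 * b‖ ^ 2 = (1 - b + Δ) ^ 2 + t ^ 2 := by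
    rw [Complex.sq_norm, Complex.normSq_apply]
    simp
    ring
  have h2 : 0 < ‖(b : ℂ) + Δ + t * I + 1 - 2 * b‖ := by
    rw [norm_pos_iff]
    intro h
    have := congrArg Complex.re h
    simp at this
    linarith
  rw [norm_div, le_div_iff₀ h2]
  refine abs_le_of_sq_le_sq' ?_ (norm_nonneg _) |>.2
  rw [mul_pow, e2, e1]
  have h3 : (1 - 8 * Δ) ^ 2 ≤ 1 - 8 * Δ := by nlinarith
  have h4 : (1 - 8 * Δ) ^ 2 * ((1 - b + Δ) ^ 2 + t ^ 2) ≤ (1 - 8 * Δ) * ((1 - b + Δ) ^ 2 + t ^ 2) :=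
    mul_le_mul_of_nonneg_right h3 (by positivity)
  refine h4.trans ?_
  set c := 1 - b with hc
  have hc2 : 1 / 2 ≤ c := by rw [hc]; linarith
  have h5 : 0 ≤ Δ * (c - 1 / 2) := mul_nonneg h0 (by linarith)
  have h6 : 4 * Δ * c ≤ 8 * Δ * (c + Δ) ^ 2 := by
    have : 0 ≤ Δ * (2 * (c + Δ) ^ 2 - c) := by
      refine mul_nonneg h0 ?_
      nlinarith [mul_nonneg h0 h0, mul_nonneg (show (0:ℝ) ≤ c by linarith) h0, mul_nonneg (show (0:ℝ) ≤ c by linarith) (show (0:ℝ) ≤ c - 1/2 by linarith)]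
    nlinarith
  nlinarith [mul_nonneg h0 (sq_nonneg t)]

theorem half_ptG {Q : ℂ → ℂ} {N C1 C2 p Δ t b : ℝ} {M : ℕ} (hp : 0 < p) (hN : 1 ≤ N) (hM : 1 ≤ M)
    (hQd : Differentiable ℂ Q) (hQ1 : ∀ z : ℂ, 3 / 8 ≤ z.re → z.re ≤ 2 → ‖Q z‖ ≤ C1)
    (hQ2 : ∀ z : ℂ, 2 ≤ z.re → ‖riemannZeta z - Q z‖ * N ^ z.re ≤ C2)
    (hb0 : 3 / 8 ≤ b) (hb1 : b ≤ 1 / 2)
    (h0 : 0 < Δ) (h1 : Δ ≤ 1 / 8) :
    ((1 - 8 * Δ) * N ^ Δ / (1 + Δ) ^ (2 * M)) ^ p *
      ‖riemannZeta (((b + Δ : ℝ) : ℂ) + t * I) - Q (((b + Δ : ℝ) : ℂ) + t * I)‖ ^ p ≤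
    ∫ w : ℝ, (KP Δ w * (1 + w ^ 2) ^ (-(M * p))) *
      ‖riemannZeta ((b : ℂ) + (t + w : ℝ) * I) - Q ((b : ℂ) + (t + w : ℝ) * I)‖ ^ p := by
  have hN0 : 0 < N := by linarith
  have hNc : (N : ℂ) ≠ 0 := by exact_mod_cast hN0.ne'
  set c : ℂ := (b : ℂ) + t * I with hc
  have hcre : c.re = b := by simp [hc]
  have hcim : c.im = t := by simp [hc]
  set F : ℂ → ℂ := fun z => (Zt z - (z - 1) * Q z) / (z + 1 - 2 * b) * (N : ℂ) ^ (z - b) *
    (1 / (1 + z - c)) ^ (2 * M) with hF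
  have hre0 : ∀ z : ℂ, (z + 1 - 2 * (b : ℂ)).re = z.re + 1 - 2 * b := by
    intro z; simp
  have hne : ∀ z : ℂ, b ≤ z.re → z + 1 - 2 * (b : ℂ) ≠ 0 := by
    intro z hz h
    have := congrArg Complex.re h
    rw [hre0] at this
    simp at this
    linarith
  have hne2 : ∀ z : ℂ, b ≤ z.re → 1 + z - c ≠ 0 := by
    intro z hz h
    have := congrArg Complex.re h
    simp [hcre] at this
    linarith
  have hFd : ∀ z : ℂ, b ≤ z.re → DifferentiableAt ℂ F z := by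
    intro z hz
    have hz0 : 0 < z.re := by linarith
    have d1 : DifferentiableAt ℂ (fun z : ℂ => z + 1 - 2 * (b : ℂ)) z := by fun_prop
    have d2 : DifferentiableAt ℂ (fun z : ℂ => Zt z - (z - 1) * Q z) z :=
      (Zt_differentiableAt hz0).sub (by fun_prop)
    have d3 : DifferentiableAt ℂ (fun z : ℂ => (N : ℂ) ^ (z - (b : ℂ))) z :=
      DifferentiableAt.const_cpow (by fun_prop) (Or.inl hNc)
    have d4 : DifferentiableAt ℂ (fun z : ℂ => 1 + z - c) z := by fun_prop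
    have d5 : DifferentiableAt ℂ (fun z : ℂ => (1 / (1 + z - c)) ^ (2 * M)) z :=
      ((differentiableAt_const _).div d4 (hne2 z hz)).pow _
    exact ((d2.div d1 (hne z hz)).mul d3).mul d5
  have hg1 : ∀ z : ℂ, b ≤ z.re → 1 ≤ ‖1 + z - c‖ := by
    intro z hz
    have := Complex.re_le_norm (1 + z - c)
    simp only [Complex.add_re, Complex.sub_re, Complex.one_re, hcre] at this
    linarith
  have hFn : ∀ z : ℂ, ‖F z‖ = ‖(Zt z - (z - 1) * Q z) / (z + 1 - 2 * b)‖ * N ^ (z.re - b) *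
      (1 / ‖1 + z - c‖) ^ (2 * M) := by
    intro z
    rw [hF]
    simp only
    rw [norm_mul, norm_mul, Complex.norm_cpow_eq_rpow_re_of_pos hN0, norm_pow, norm_div (1:ℂ), norm_one]
    congr 2
  have hZt : ∀ z : ℂ, 0 < z.re → z ≠ 1 → Zt z - (z - 1) * Q z = (z - 1) * (riemannZeta z - Q z) := by
    intro z hz h1
    rw [← zeta_eq_pos hz h1]; ring
  have hC1 : 0 ≤ C1 := (norm_nonneg _).trans (hQ1 1 (by norm_num) (by norm_num))
  have hC2 : 0 ≤ C2 := (mul_nonneg (norm_nonneg _) (by positivity)).trans (hQ2 2 (by norm_num))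
  set B : ℝ := 2 * (4 + C1) * (2 + ‖c - 1‖) ^ 2 * N ^ 2 + C2 with hB
  have hb : ∀ z : ℂ, b ≤ z.re → ‖F z‖ ≤ B := by
    intro z hz
    have hz0 : 0 < z.re := by linarith
    have hgz := hg1 z hz
    have hgz0 : 0 < ‖1 + z - c‖ := by linarith
    have hpw : (1 / ‖1 + z - c‖) ^ (2 * M) ≤ (1 / ‖1 + z - c‖) ^ 2 := by
      refine pow_le_pow_of_le_one (by positivity) ?_ (by omega)
      rw [div_le_one hgz0]; exact hgz
    have hzn : 1 / 2 ≤ ‖z + 1 - 2 * (b : ℂ)‖ := by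
      have := Complex.re_le_norm (z + 1 - 2 * (b : ℂ))
      rw [hre0] at this
      linarith
    rw [hFn]
    rcases le_total z.re 2 with h2 | h2
    · have b1 : ‖(Zt z - (z - 1) * Q z) / (z + 1 - 2 * b)‖ ≤ 2 * (4 + C1) * (‖z‖ + 1) ^ 2 := by
        rw [norm_div, div_le_iff₀ (by linarith)]
        have a1 := Zt_le (s := z) (by linarith)
        have a2 : ‖(z - 1) * Q z‖ ≤ (‖z‖ + 1) * C1 := by
          rw [norm_mul]
          have := norm_sub_le z 1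
          rw [norm_one] at this
          exact mul_le_mul this (hQ1 z (by linarith) h2) (norm_nonneg _) (by positivity)
        have a3 := norm_sub_le (Zt z) ((z - 1) * Q z)
        have a4 : (‖z‖ + 1) * C1 ≤ (‖z‖ + 1) ^ 2 * C1 := by
          have : ‖z‖ + 1 ≤ (‖z‖ + 1) ^ 2 := by nlinarith [norm_nonneg z]
          exact mul_le_mul_of_nonneg_right this hC1
        have a5 : (4 + C1) * (‖z‖ + 1) ^ 2 ≤ 2 * (4 + C1) * (‖z‖ + 1) ^ 2 * ‖z + 1 - 2 * (b : ℂ)‖ := by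
          have : 0 ≤ (4 + C1) * (‖z‖ + 1) ^ 2 := by positivity
          nlinarith
        nlinarith
      have b2 : N ^ (z.re - b) ≤ N ^ 2 := by
        rw [← Real.rpow_natCast]
        refine Real.rpow_le_rpow_of_exponent_le hN ?_
        push_cast; linarith
      have b3 : ‖z‖ + 1 ≤ ‖1 + z - c‖ * (2 + ‖c - 1‖) := by
        have a1 : ‖z‖ ≤ ‖1 + z - c‖ + ‖c - 1‖ := by
          have := norm_add_le (1 + z - c) (c - 1)
          rwa [show 1 + z - c + (c - 1) = z by ring] at this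
        nlinarith [norm_nonneg (c - 1)]
      have b4 : (‖z‖ + 1) ^ 2 * (1 / ‖1 + z - c‖) ^ 2 ≤ (2 + ‖c - 1‖) ^ 2 := by
        rw [← mul_pow]
        refine pow_le_pow_left₀ (by positivity) ?_ 2
        rw [mul_one_div, div_le_iff₀ hgz0]
        linarith
      calc ‖(Zt z - (z - 1) * Q z) / (z + 1 - 2 * b)‖ * N ^ (z.re - b) * (1 / ‖1 + z - c‖) ^ (2 * M) ≤
          (2 * (4 + C1) * (‖z‖ + 1) ^ 2) * N ^ 2 * (1 / ‖1 + z - c‖) ^ 2 := by gcongr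
        _ = 2 * (4 + C1) * ((‖z‖ + 1) ^ 2 * (1 / ‖1 + z - c‖) ^ 2) * N ^ 2 := by ring
        _ ≤ 2 * (4 + C1) * (2 + ‖c - 1‖) ^ 2 * N ^ 2 := by gcongr
        _ ≤ B := by linarith
    · have hz1 : z ≠ 1 := by
        rintro rfl; norm_num at h2
      rw [hZt z hz0 hz1, nrm_swap]
      have b1 : ‖(z - 1) / (z + 1 - 2 * b)‖ ≤ 1 := by
        rw [norm_div, div_le_one (by linarith)]
        have e1 : ‖z - 1‖ ^ 2 ≤ ‖z + 1 - 2 * (b : ℂ)‖ ^ 2 := by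
          rw [Complex.sq_norm, Complex.sq_norm, Complex.normSq_apply, Complex.normSq_apply]
          simp
          nlinarith
        exact (abs_le_of_sq_le_sq' e1 (norm_nonneg _)).2
      have b2 : N ^ (z.re - b) ≤ N ^ z.re := Real.rpow_le_rpow_of_exponent_le hN (by linarith)
      have b3 : (1 / ‖1 + z - c‖) ^ (2 * M) ≤ 1 := by
        refine pow_le_one₀ (by positivity) ?_
        rw [div_le_one hgz0]; exact hgz
      calc ‖riemannZeta z - Q z‖ * ‖(z - 1) / (z + 1 - 2 * b)‖ * N ^ (z.re - b) *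
            (1 / ‖1 + z - c‖) ^ (2 * M) ≤ ‖riemannZeta z - Q z‖ * 1 * N ^ z.re * 1 := by gcongr
        _ = ‖riemannZeta z - Q z‖ * N ^ z.re := by ring
        _ ≤ C2 := hQ2 z h2
        _ ≤ B := by
          have : 0 ≤ 2 * (4 + C1) * (2 + ‖c - 1‖) ^ 2 * N ^ 2 := by positivity
          linarith
  have hmain := hp_ineq (F := F) (b := b) (t := t) (C := B) h0 hp ?_ ?_ ?_
  · have e1 : ((b : ℂ) + Δ + t * I) = (((b + Δ : ℝ) : ℂ) + t * I) := by push_cast; ring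
    have hz1 : ((b : ℂ) + Δ + t * I) ≠ 1 := by
      intro h
      have := congrArg Complex.re h
      simp at this
      linarith
    have hre : ((b : ℂ) + Δ + t * I).re = b + Δ := by simp
    have hlow : ((1 - 8 * Δ) * N ^ Δ / (1 + Δ) ^ (2 * M)) *
        ‖riemannZeta (((b + Δ : ℝ) : ℂ) + t * I) - Q (((b + Δ : ℝ) : ℂ) + t * I)‖ ≤
        ‖F ((b : ℂ) + Δ + t * I)‖ := by
      rw [hFn, hZt _ (by rw [hre]; linarith) hz1, nrm_swap, hre, ← e1]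
      have h3 := norm_ratio_ge_b (t := t) hb1 h0.le (by linarith : 8 * Δ ≤ 1)
      have e2 : ‖1 + ((b : ℂ) + Δ + t * I) - c‖ = 1 + Δ := by
        rw [hc, show 1 + ((b : ℂ) + Δ + t * I) - ((b : ℂ) + t * I) =
          ((1 + Δ : ℝ) : ℂ) by push_cast; ring, Complex.norm_real, Real.norm_of_nonneg (by linarith)]
      rw [e2, show (b + Δ - b) = Δ by ring, one_div (1 + Δ), inv_pow]
      have hX := norm_nonneg (riemannZeta ((b : ℂ) + Δ + t * I) - Q ((b : ℂ) + Δ + t * I))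
      have hY : 0 ≤ N ^ Δ * ((1 + Δ) ^ (2 * M))⁻¹ := by positivity
      calc ((1 - 8 * Δ) * N ^ Δ / (1 + Δ) ^ (2 * M)) * ‖riemannZeta ((b : ℂ) + Δ + t * I) -
            Q ((b : ℂ) + Δ + t * I)‖ = (1 - 8 * Δ) * (‖riemannZeta ((b : ℂ) + Δ + t * I) -
            Q ((b : ℂ) + Δ + t * I)‖ * (N ^ Δ * ((1 + Δ) ^ (2 * M))⁻¹)) := by
              rw [div_eq_mul_inv]; ring
        _ ≤ ‖((b : ℂ) + Δ + t * I - 1) / ((b : ℂ) + Δ + t * I + 1 - 2 * b)‖ *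
            (‖riemannZeta ((b : ℂ) + Δ + t * I) -
            Q ((b : ℂ) + Δ + t * I)‖ * (N ^ Δ * ((1 + Δ) ^ (2 * M))⁻¹)) :=
              mul_le_mul_of_nonneg_right h3 (mul_nonneg hX hY)
        _ = _ := by ring
    have hlow2 : 0 ≤ (1 - 8 * Δ) * N ^ Δ / (1 + Δ) ^ (2 * M) := by
      have : 0 ≤ 1 - 8 * Δ := by linarith
      positivity
    rw [← Real.mul_rpow hlow2 (norm_nonneg _)]
    refine (Real.rpow_le_rpow (mul_nonneg hlow2 (norm_nonneg _)) hlow hp.le).trans ?_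
    refine hmain.trans (le_of_eq ?_)
    refine integral_congr_ae (Filter.Eventually.of_forall fun w => ?_)
    simp only
    have r1 : ((b : ℂ) + ((t + w : ℝ) : ℂ) * I).re = b := by simp
    have hz2 : ((b : ℂ) + ((t + w : ℝ) : ℂ) * I) ≠ 1 := by
      intro h
      have := congrArg Complex.re h
      rw [r1] at this
      norm_num at this
      linarith
    rw [hFn, hZt _ (by rw [r1]; linarith) hz2, nrm_swap, r1,
      norm_ratio_b (by linarith), sub_self, Real.rpow_zero, mul_one, mul_one]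
    have e3 : ‖1 + ((b : ℂ) + ((t + w : ℝ) : ℂ) * I) - c‖ ^ 2 = 1 + w ^ 2 := by
      rw [hc, show 1 + ((b : ℂ) + ((t + w : ℝ) : ℂ) * I) - ((b : ℂ) + t * I) =
        1 + (w : ℂ) * I by push_cast; ring, Complex.sq_norm, Complex.normSq_apply]
      simp
      ring
    have h4 : 0 < 1 + w ^ 2 := by positivity
    have e5 : (1 / ‖1 + ((b : ℂ) + ((t + w : ℝ) : ℂ) * I) - c‖) ^ 2 = (1 + w ^ 2)⁻¹ := by
      rw [div_pow, one_pow, e3, one_div]
    rw [pow_mul, e5, Real.mul_rpow (norm_nonneg _) (by positivity)]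
    have e4 : (((1 + w ^ 2)⁻¹) ^ M : ℝ) ^ p = (1 + w ^ 2) ^ (-(M * p)) := by
      rw [← Real.rpow_natCast, Real.inv_rpow h4.le, ← Real.rpow_neg h4.le, ← Real.rpow_mul h4.le]
      congr 1; ring
    rw [e4]
    ring
  · intro z hz
    have hz' : b < z.re := hz
    exact (hFd z hz'.le).differentiableWithinAt
  · intro z hz
    have hz' : b ≤ z.re := hz
    exact (hFd z hz').continuousAt.continuousWithinAt
  · intro z hz
    exact hb z hz.le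

theorem half_fixG {Q : ℂ → ℂ} {N C1 C2 p Δ T B E b : ℝ} {M : ℕ} (hp : 0 < p) (hN : 1 ≤ N) (hM : 1 ≤ M)
    (hMp : (M : ℝ) * p = 16)
    (hQd : Differentiable ℂ Q) (hQ1 : ∀ z : ℂ, 3 / 8 ≤ z.re → z.re ≤ 2 → ‖Q z‖ ≤ C1)
    (hQ2 : ∀ z : ℂ, 2 ≤ z.re → ‖riemannZeta z - Q z‖ * N ^ z.re ≤ C2)
    (hb0 : 3 / 8 ≤ b) (hb1 : b ≤ 1 / 2)
    (h0 : 0 < Δ) (h1 : Δ ≤ 1 / 8) (hT : 1 ≤ T) (hB : 0 ≤ B)
    (hGB : ∀ x, qn Q p b x ≤ B * (1 + |x|))
    (hE : (∫ t in (-(T ^ ((1:ℝ)/4)))..0, qn Q p b t) +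
      ∫ t in T..(T + T ^ ((1:ℝ)/4)), qn Q p b t ≤ E) :
    ((1 - 8 * Δ) * N ^ Δ / (1 + Δ) ^ (2 * M)) ^ p * ∫ t in (0:ℝ)..T, qn Q p (b + Δ) t ≤
      (∫ t in (0:ℝ)..T, qn Q p b t) + E +
      T * (B * (1 + T)) * (2 * Real.pi * (1 / Δ) * (T ^ ((1:ℝ)/4)) ^ (-(29:ℝ))) := by
  have hT0 : 0 < T := by linarith
  set U : ℝ := T ^ ((1:ℝ)/4) with hU
  have hU1 : 1 ≤ U := Real.one_le_rpow hT (by norm_num)
  set K : ℝ → ℝ := fun w => KP Δ w * (1 + w ^ 2) ^ (-((M:ℝ) * p)) with hK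
  have hKe : K = fun w => KP Δ w * (1 + w ^ 2) ^ (-(16:ℝ)) := by rw [hK, hMp]
  have hKc : Continuous K := by
    rw [hKe]
    refine (KP_cont h0).mul ?_
    refine Continuous.rpow_const (by fun_prop) fun w => Or.inl ?_
    positivity
  have hpw : ∀ w : ℝ, (1 + w ^ 2) ^ (-(16:ℝ)) ≤ 1 := fun w =>
    Real.rpow_le_one_of_one_le_of_nonpos (by nlinarith [sq_nonneg w]) (by norm_num)
  have hK0 : ∀ w, 0 ≤ K w := by
    intro w
    rw [hKe]
    exact mul_nonneg (KP_nonneg h0 w) (by positivity)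
  have hKb : ∀ w, K w ≤ (1 / Δ) * (1 + w ^ 2) ^ (-(16:ℝ)) := by
    intro w
    rw [hKe]
    exact mul_le_mul_of_nonneg_right (KP_le h0 w) (by positivity)
  obtain ⟨i1, i2, i3⟩ := tail_int (A := 1 / Δ) (U := U) (by positivity) hU1 hKc hK0 hKb
  have hKm : ∫ w, K w ≤ 1 := by
    obtain ⟨j1, j2⟩ := KP_int h0
    rw [← j2]
    refine integral_mono i1 j1 fun w => ?_
    rw [hKe]
    exact mul_le_of_le_one_right (KP_nonneg h0 w) (hpw w)
  have hc0 := qn_cont hQd (p := p) (σ := b) hp (by linarith)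
  have hc1 := qn_cont hQd (p := p) (σ := b + Δ) hp (by linarith)
  set fac : ℝ := ((1 - 8 * Δ) * N ^ Δ / (1 + Δ) ^ (2 * M)) ^ p with hfac
  have hpt : ∀ t ∈ Set.Icc 0 T, fac * qn Q p (b + Δ) t ≤ ∫ w, K w * qn Q p b (t + w) := by
    intro t _
    exact half_ptG hp hN hM hQd hQ1 hQ2 hb0 hb1 h0 h1
  have hmain := avg_le (K := K) (G := qn Q p b) (H := fun t => fac * qn Q p (b + Δ) t)
    (T := T) (U := U) (B := B) hT0.le (by linarith) hB hKc hK0 i2 i1 hc0 (qn_nonneg _ _ _) hGB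
    (continuous_const.mul hc1) hpt
  rw [intervalIntegral.integral_const_mul] at hmain
  refine hmain.trans (add_le_add ?_ (mul_le_mul_of_nonneg_left i3 (by positivity)))
  have hE0 : 0 ≤ ∫ t in (-U)..(T + U), qn Q p b t :=
    intervalIntegral.integral_nonneg (by linarith) fun x _ => qn_nonneg _ _ _ _
  calc (∫ w, K w) * ∫ t in (-U)..(T + U), qn Q p b t ≤
      1 * ∫ t in (-U)..(T + U), qn Q p b t := mul_le_mul_of_nonneg_right hKm hE0
    _ = (∫ t in (0:ℝ)..T, qn Q p b t) + ((∫ t in (-U)..0, qn Q p b t) +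
        ∫ t in T..(T + U), qn Q p b t) := by rw [one_mul, split_edges hc0]
    _ ≤ _ := by linarith

end Pool.Agent.TH526.FM
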