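import Pool.Agent.TH526.FM.Ev
import Pool.Agent.W184.Const

set_option autoImplicit false

/-! The improved two-sided bounds. -/

namespace Pool.Agent.TH526.FM

open MeasureTheory Filter Topology Pool.Agent.H306R2 Pool.Agent.W184

theorem upperG {v : ℕ} (hv : 2 ≤ v) {δ : ℝ} (hδ : 0 < δ) {C : ℝ}
    (hC : Real.exp (2 / (v:ℝ) * δ / 2) * (aF (1 / (v:ℝ)) * (gI (1 / (v:ℝ)) δ +
      Real.exp (-(2 / (v:ℝ) * (δ + δ))) * gI (1 / (v:ℝ)) (-δ))) / (1 - Real.exp (-(2 / (v:ℝ) * δ))) < C) :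
    ∀ᶠ T : ℝ in atTop, ∫ t in (0:ℝ)..T, zn (1 / 2) t ^ (2 / (v:ℝ)) ≤ C * MM v T := by
  have hv0 : (0:ℝ) < v := by exact_mod_cast (by omega : 0 < v)
  set a : ℝ := aF (1 / (v:ℝ)) * gI (1 / (v:ℝ)) δ with ha
  set b : ℝ := aF (1 / (v:ℝ)) * gI (1 / (v:ℝ)) (-δ) with hb
  set E : ℝ := Real.exp (2 / (v:ℝ) * δ / 2) with hE
  set E2 : ℝ := Real.exp (-(2 / (v:ℝ) * (δ + δ))) with hE2
  set E3 : ℝ := Real.exp (2 / (v:ℝ) * δ) with hE3
  have hE0 : 0 < E := Real.exp_pos _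
  have hE20 : 0 < E2 := Real.exp_pos _
  have hE30 : 0 < E3 := Real.exp_pos _
  have hq : E2 * E3 = Real.exp (-(2 / (v:ℝ) * δ)) := by rw [hE3, hE2, ← Real.exp_add]; congr 1; ring
  have hq1 : E2 * E3 < 1 := by
    rw [hq, Real.exp_lt_one_iff]
    have : 0 < 2 / (v:ℝ) * δ := by positivity
    linarith
  set Φ : ℝ → ℝ := fun η => (E + η) * ((a + η + (E2 + η) * (E3 * η + b + 2 * η)) /
    (1 - (E2 + η) * E3) + η) with hΦ
  have hΦ0 : Φ 0 < C := by
    refine lt_of_eq_of_lt ?_ hC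
    simp only [hΦ]
    rw [← hq]
    simp only [ha, hb]
    ring
  have hcont : ContinuousAt Φ 0 := by
    simp only [hΦ]
    refine ContinuousAt.mul (by fun_prop) (ContinuousAt.add ?_ (by fun_prop))
    refine ContinuousAt.div (by fun_prop) (by fun_prop) ?_
    simp only [add_zero]
    linarith
  have hcont2 : ContinuousAt (fun η : ℝ => (E2 + η) * E3) 0 := by fun_prop
  have h1 : ∀ᶠ η in 𝓝[>] (0:ℝ), Φ η < C :=
    (hcont.eventually (gt_mem_nhds hΦ0)).filter_mono nhdsWithin_le_nhds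
  have h2 : ∀ᶠ η in 𝓝[>] (0:ℝ), (E2 + η) * E3 < 1 := by
    refine (hcont2.eventually (gt_mem_nhds ?_)).filter_mono nhdsWithin_le_nhds
    simpa using hq1
  obtain ⟨η, hη1, hη2, hη⟩ := (h1.and (h2.and self_mem_nhdsWithin)).exists
  have hη0 : 0 < η := hη
  filter_upwards [refl_ev hv hδ hη0, half_ev_SG hv hδ.le hδ hη0, S_ev hv hδ.le hη0, S_evN hv hδ.le hη0,
    fe_ev hv hδ.le hη0, eventually_gt_atTop 1,
    (delta_tendsto δ).eventually (gt_mem_nhds (show (0:ℝ) < 1/8 by norm_num))]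
    with T r1 r2 r3 r4 r7 r5 r6
  obtain ⟨-, -, k3, k4⟩ := kv hv
  have hT0 : 0 < T := by linarith
  have hM := MM_pos (v := v) r5
  have hL := Real.log_pos r5
  have hbe : 1 / 2 + -δ / Real.log T = 1 / 2 - δ / Real.log T := by ring
  rw [hbe] at r2 r4 r7
  set Δ := δ / Real.log T with hΔ
  have hΔ0 : 0 < Δ := by positivity
  have cz := zp_cont (σ := 1 / 2 + Δ) (p := 2 / (v:ℝ)) (by linarith) k3
  have cz0 := zp_cont (σ := 1 / 2 - Δ) (p := 2 / (v:ℝ)) (by linarith) k3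
  have cq := qn_cont (QQ_diff (v := v) T) (p := 2 / (v:ℝ)) (σ := 1 / 2 + Δ) k3 (by linarith)
  have cq0 := qn_cont (QQ_diff (v := v) T) (p := 2 / (v:ℝ)) (σ := 1 / 2 - Δ) k3 (by linarith)
  have t1 := int_add_le cz (sn_cont T (1 / 2 + Δ)) cq hT0.le (tri1 hv T (1 / 2 + Δ))
  have t2 := int_add_le cq0 cz0 (sn_cont T (1 / 2 - Δ)) hT0.le (tri2 hv T (1 / 2 - Δ))
  set Z0 := ∫ t in (0:ℝ)..T, zn (1 / 2) t ^ (2 / (v:ℝ))
  set Z1 := ∫ t in (0:ℝ)..T, zn (1 / 2 + Δ) t ^ (2 / (v:ℝ))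
  set Zm := ∫ t in (0:ℝ)..T, zn (1 / 2 - Δ) t ^ (2 / (v:ℝ))
  set D0 := ∫ t in (0:ℝ)..T, qn (QQ v T) (2 / (v:ℝ)) (1 / 2 - Δ) t
  set D1 := ∫ t in (0:ℝ)..T, qn (QQ v T) (2 / (v:ℝ)) (1 / 2 + Δ) t
  set S0 := ∫ t in (0:ℝ)..T, sn v T (1 / 2 - Δ) t
  set S1 := ∫ t in (0:ℝ)..T, sn v T (1 / 2 + Δ) t
  set M := MM v T
  have s1 : D1 ≤ (E2 + η) * (E3 * (Z1 + η * M) + (b + 2 * η) * M) := by
    refine r2.trans (mul_le_mul_of_nonneg_left ?_ (by positivity))
    linarith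
  have s3 : Z1 * (1 - (E2 + η) * E3) ≤ (a + η + (E2 + η) * (E3 * η + b + 2 * η)) * M := by
    nlinarith [r3.1]
  have s5 : 0 < 1 - (E2 + η) * E3 := by linarith
  have s6 : Z1 ≤ (a + η + (E2 + η) * (E3 * η + b + 2 * η)) / (1 - (E2 + η) * E3) * M := by
    rw [div_mul_eq_mul_div, le_div_iff₀ s5]
    exact s3
  have s7 : Z0 ≤ Φ η * M := by
    refine r1.trans ?_
    simp only [hΦ]
    rw [mul_assoc]
    refine mul_le_mul_of_nonneg_left ?_ (by positivity)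
    rw [add_mul]
    linarith
  exact s7.trans (mul_le_mul_of_nonneg_right hη1.le hM.le)

theorem lowerG {v : ℕ} (hv : 2 ≤ v) {x y : ℝ} (hx : 0 < x) (hy : 0 < y) {c : ℝ}
    (hc : c < aF (1 / (v:ℝ)) * (gI (1 / (v:ℝ)) x - Real.exp (-(2 / (v:ℝ) * (x + y))) *
      gI (1 / (v:ℝ)) (-y)) / (1 + Real.exp (-(2 / (v:ℝ) * x)))) :
    ∀ᶠ T : ℝ in atTop, c * MM v T ≤ ∫ t in (0:ℝ)..T, zn (1 / 2) t ^ (2 / (v:ℝ)) := by
  have hv0 : (0:ℝ) < v := by exact_mod_cast (by omega : 0 < v)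
  set a : ℝ := aF (1 / (v:ℝ)) * gI (1 / (v:ℝ)) x with ha
  set b : ℝ := aF (1 / (v:ℝ)) * gI (1 / (v:ℝ)) (-y) with hb
  set E2 : ℝ := Real.exp (-(2 / (v:ℝ) * (x + y))) with hE2
  set E3 : ℝ := Real.exp (2 / (v:ℝ) * y) with hE3
  have hE20 : 0 < E2 := Real.exp_pos _
  have hE30 : 0 < E3 := Real.exp_pos _
  have hq : E2 * E3 = Real.exp (-(2 / (v:ℝ) * x)) := by rw [hE3, hE2, ← Real.exp_add]; congr 1; ring
  set Ψ : ℝ → ℝ := fun η => (a - η - (1 + η) * η -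
    (E2 + η) * (E3 * ((1 + η) * η + η) + b + 2 * η)) / (1 + η + (E2 + η) * E3 * (1 + η)) with hΨ
  have hΨ0 : c < Ψ 0 := by
    refine lt_of_lt_of_eq hc ?_
    simp only [hΨ]
    rw [← hq]
    simp only [ha, hb]
    ring
  have hcont : ContinuousAt Ψ 0 := by
    simp only [hΨ]
    refine ContinuousAt.div (by fun_prop) (by fun_prop) ?_
    simp only [add_zero]
    positivity
  have h1 : ∀ᶠ η in 𝓝[>] (0:ℝ), c < Ψ η :=
    (hcont.eventually (lt_mem_nhds hΨ0)).filter_mono nhdsWithin_le_nhds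
  obtain ⟨η, hη1, hη⟩ := (h1.and self_mem_nhdsWithin).exists
  have hη0 : 0 < η := hη
  filter_upwards [half_ev_0 hv hx hη0, half_ev_0 hv hy hη0, half_ev_SG hv hy.le hx hη0,
    S_ev hv hx.le hη0, S_evN hv hy.le hη0, fe_ev hv hy.le hη0,
    eventually_gt_atTop 1, (delta_tendsto x).eventually (gt_mem_nhds (show (0:ℝ) < 1/8 by norm_num)),
    (delta_tendsto y).eventually (gt_mem_nhds (show (0:ℝ) < 1/8 by norm_num))]
    with T r1 r1' r2 r3 r4 r7 r5 r6 r6'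
  obtain ⟨-, -, k3, k4⟩ := kv hv
  have hT0 : 0 < T := by linarith
  have hM := MM_pos (v := v) r5
  have hL := Real.log_pos r5
  have hbe : 1 / 2 + -y / Real.log T = 1 / 2 - y / Real.log T := by ring
  rw [hbe] at r2 r4 r7
  set Δ := x / Real.log T with hΔ
  set Δ' := y / Real.log T with hΔ'
  have hΔ0 : 0 < Δ := by positivity
  have hΔ0' : 0 < Δ' := by positivity
  have cz := zp_cont (σ := 1 / 2 + Δ) (p := 2 / (v:ℝ)) (by linarith) k3
  have cz0 := zp_cont (σ := 1 / 2 - Δ') (p := 2 / (v:ℝ)) (by linarith) k3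
  have cq := qn_cont (QQ_diff (v := v) T) (p := 2 / (v:ℝ)) (σ := 1 / 2 + Δ) k3 (by linarith)
  have cq0 := qn_cont (QQ_diff (v := v) T) (p := 2 / (v:ℝ)) (σ := 1 / 2 - Δ') k3 (by linarith)
  have t1 := int_add_le (sn_cont T (1 / 2 + Δ)) cz cq hT0.le (tri3 hv T (1 / 2 + Δ))
  have t2 := int_add_le cq0 cz0 (sn_cont T (1 / 2 - Δ')) hT0.le (tri2 hv T (1 / 2 - Δ'))
  set Z0 := ∫ t in (0:ℝ)..T, zn (1 / 2) t ^ (2 / (v:ℝ))
  set Z1 := ∫ t in (0:ℝ)..T, zn (1 / 2 + Δ) t ^ (2 / (v:ℝ))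
  set Zy := ∫ t in (0:ℝ)..T, zn (1 / 2 + Δ') t ^ (2 / (v:ℝ))
  set Zm := ∫ t in (0:ℝ)..T, zn (1 / 2 - Δ') t ^ (2 / (v:ℝ))
  set D0 := ∫ t in (0:ℝ)..T, qn (QQ v T) (2 / (v:ℝ)) (1 / 2 - Δ') t
  set D1 := ∫ t in (0:ℝ)..T, qn (QQ v T) (2 / (v:ℝ)) (1 / 2 + Δ) t
  set S0 := ∫ t in (0:ℝ)..T, sn v T (1 / 2 - Δ') t
  set S1 := ∫ t in (0:ℝ)..T, sn v T (1 / 2 + Δ) t
  set M := MM v T
  have s0 : Zm ≤ E3 * ((1 + η) * (Z0 + η * M) + η * M) :=
    r7.trans (mul_le_mul_of_nonneg_left (by linarith) hE30.le)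
  have s1 : D1 ≤ (E2 + η) * (E3 * ((1 + η) * (Z0 + η * M) + η * M) + (b + 2 * η) * M) := by
    refine r2.trans (mul_le_mul_of_nonneg_left ?_ (by positivity))
    linarith
  have s4 : (a - η - (1 + η) * η - (E2 + η) * (E3 * ((1 + η) * η + η) + b + 2 * η)) * M ≤
      Z0 * (1 + η + (E2 + η) * E3 * (1 + η)) := by
    nlinarith [r3.2]
  have s5 : 0 < 1 + η + (E2 + η) * E3 * (1 + η) := by positivity
  have s6 : Ψ η * M ≤ Z0 := by
    simp only [hΨ]
    rw [div_mul_eq_mul_div, div_le_iff₀ s5]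
    exact s4
  exact (mul_le_mul_of_nonneg_right hη1.le hM.le).trans s6

/-- the constants relative to the natural normalisation -/
theorem upperG' {v : ℕ} (hv : 2 ≤ v) {δ C : ℝ} (hδ : 0 < δ)
    (hC : Real.exp (2 / (v:ℝ) * δ / 2) * (hI ((1 / (v:ℝ)) ^ 2) (2 * δ) +
      Real.exp (-(2 / (v:ℝ) * (δ + δ))) * hI ((1 / (v:ℝ)) ^ 2) (-(2 * δ))) <
        C * (1 - Real.exp (-(2 / (v:ℝ) * δ)))) :
    ∀ᶠ T : ℝ in atTop, ∫ t in (0:ℝ)..T, zn (1 / 2) t ^ (2 / (v:ℝ)) ≤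
      C * aF (1 / (v:ℝ)) / Real.Gamma ((1 / (v:ℝ)) ^ 2 + 1) * MM v T := by
  have hv0 : (0:ℝ) < v := by exact_mod_cast (by omega : 0 < v)
  have hκ : 0 < 1 / (v:ℝ) := by positivity
  have hA := aF_pos hκ
  have hG : 0 < Real.Gamma ((1 / (v:ℝ)) ^ 2 + 1) := Real.Gamma_pos_of_pos (by positivity)
  refine upperG hv hδ ?_
  rw [gI_eq hκ, gI_eq hκ, mul_neg]
  have h1 : 0 < 1 - Real.exp (-(2 / (v:ℝ) * δ)) := by
    have : Real.exp (-(2 / (v:ℝ) * δ)) < 1 := by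
      rw [Real.exp_lt_one_iff]
      have : 0 < 2 / (v:ℝ) * δ := by positivity
      linarith
    linarith
  rw [div_lt_iff₀ h1]
  have h2 : 0 < aF (1 / (v:ℝ)) / Real.Gamma ((1 / (v:ℝ)) ^ 2 + 1) := by positivity
  have h3 := mul_lt_mul_of_pos_left hC h2
  refine lt_of_eq_of_lt ?_ (lt_of_lt_of_eq h3 ?_)
  · ring
  · ring

theorem lowerG' {v : ℕ} (hv : 2 ≤ v) {x y c : ℝ} (hx : 0 < x) (hy : 0 < y)
    (hc : c * (1 + Real.exp (-(2 / (v:ℝ) * x))) < hI ((1 / (v:ℝ)) ^ 2) (2 * x) -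
      Real.exp (-(2 / (v:ℝ) * (x + y))) * hI ((1 / (v:ℝ)) ^ 2) (-(2 * y))) :
    ∀ᶠ T : ℝ in atTop, c * aF (1 / (v:ℝ)) / Real.Gamma ((1 / (v:ℝ)) ^ 2 + 1) * MM v T ≤
      ∫ t in (0:ℝ)..T, zn (1 / 2) t ^ (2 / (v:ℝ)) := by
  have hv0 : (0:ℝ) < v := by exact_mod_cast (by omega : 0 < v)
  have hκ : 0 < 1 / (v:ℝ) := by positivity
  have hA := aF_pos hκ
  have hG : 0 < Real.Gamma ((1 / (v:ℝ)) ^ 2 + 1) := Real.Gamma_pos_of_pos (by positivity)
  refine lowerG hv hx hy ?_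
  rw [gI_eq hκ, gI_eq hκ, mul_neg]
  have h1 : 0 < 1 + Real.exp (-(2 / (v:ℝ) * x)) := by positivity
  rw [lt_div_iff₀ h1]
  have h2 : 0 < aF (1 / (v:ℝ)) / Real.Gamma ((1 / (v:ℝ)) ^ 2 + 1) := by positivity
  have h3 := mul_lt_mul_of_pos_left hc h2
  refine lt_of_eq_of_lt ?_ (lt_of_lt_of_eq h3 ?_)
  · ring
  · ring

/-- Taylor bound with remainder for `exp u`, `0 ≤ u ≤ a` -/
lemma exp_le_taylor {a : ℝ} (n : ℕ) : ∀ u : ℝ, 0 ≤ u → u ≤ a →
    Real.exp u ≤ ∑ k ∈ Finset.range n, u ^ k / (k.factorial : ℝ) + u ^ n / (n.factorial : ℝ) * Real.exp a := by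
  induction n with
  | zero =>
    intro u _ hu
    simpa using hu
  | succ n ih =>
    set f : ℝ → ℝ := fun u => ∑ k ∈ Finset.range (n + 1), u ^ k / (k.factorial : ℝ) +
      u ^ (n + 1) / ((n + 1).factorial : ℝ) * Real.exp a - Real.exp u with hf
    have hd : ∀ u, HasDerivAt f (∑ k ∈ Finset.range n, u ^ k / (k.factorial : ℝ) +
        u ^ n / (n.factorial : ℝ) * Real.exp a - Real.exp u) u := by
      intro u
      have h1 := Real.hasDerivAt_exp u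
      have h2 : HasDerivAt (fun u : ℝ => ∑ k ∈ Finset.range (n + 1), u ^ k / (k.factorial : ℝ))
          (∑ k ∈ Finset.range (n + 1), ((k:ℝ) * u ^ (k - 1)) / (k.factorial : ℝ)) u := by
        refine HasDerivAt.fun_sum fun k _ => ?_
        exact (hasDerivAt_pow k u).div_const _
      have h3 : (∑ k ∈ Finset.range (n + 1), ((k:ℝ) * u ^ (k - 1)) / (k.factorial : ℝ)) =
          ∑ k ∈ Finset.range n, u ^ k / (k.factorial : ℝ) := by
        rw [Finset.sum_range_succ']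
        simp only [Nat.cast_zero, zero_mul, zero_div, add_zero]
        refine Finset.sum_congr rfl fun k _ => ?_
        rw [Nat.add_sub_cancel, Nat.factorial_succ]
        push_cast
        have : (k:ℝ) + 1 ≠ 0 := by positivity
        have : (k.factorial : ℝ) ≠ 0 := by positivity
        field_simp
      rw [h3] at h2
      have h4 : HasDerivAt (fun u : ℝ => u ^ (n + 1) / ((n + 1).factorial : ℝ) * Real.exp a)
          (u ^ n / (n.factorial : ℝ) * Real.exp a) u := by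
        have h5 := ((hasDerivAt_pow (n + 1) u).div_const ((n + 1).factorial : ℝ)).mul_const (Real.exp a)
        refine h5.congr_deriv ?_
        rw [Nat.add_sub_cancel, Nat.factorial_succ]
        push_cast
        have : (n:ℝ) + 1 ≠ 0 := by positivity
        have : (n.factorial : ℝ) ≠ 0 := by positivity
        field_simp
      exact (h2.add h4).sub h1
    have hmono : MonotoneOn f (Set.Icc 0 a) := by
      refine monotoneOn_of_deriv_nonneg (convex_Icc 0 a)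
        (fun u _ => (hd u).continuousAt.continuousWithinAt)
        (fun u _ => (hd u).differentiableAt.differentiableWithinAt) ?_
      intro u hu
      rw [interior_Icc] at hu
      rw [(hd u).deriv]
      linarith [ih u hu.1.le hu.2.le]
    intro u hu hua
    have h0 : f 0 = 0 := by
      simp only [hf]
      rw [Finset.sum_range_succ']
      simp
    have := hmono (Set.mem_Icc.mpr ⟨le_rfl, hu.trans hua⟩) (Set.mem_Icc.mpr ⟨hu, hua⟩) hu
    rw [h0] at this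
    simp only [hf] at this
    linarith

/-- upper bound for `hI` at negative arguments -/
lemma hI_neg_up {s a : ℝ} (hs : 0 < s) (ha : 0 ≤ a) (n : ℕ) :
    hI s (-a) ≤ ∑ k ∈ Finset.range n, a ^ k / (k.factorial : ℝ) * (s / (s + k)) +
      a ^ n / (n.factorial : ℝ) * (s / (s + n)) * Real.exp a := by
  have i1 : IntervalIntegrable (fun x : ℝ => s * x ^ (s - 1) * Real.exp (-(-a * x))) volume 0 1 :=
    (rpow_ii hs 0 1).mul_continuousOn (by fun_prop)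
  have i2 : IntervalIntegrable (fun x : ℝ => s * x ^ (s - 1) *
        (∑ k ∈ Finset.range n, (a * x) ^ k / (k.factorial : ℝ) +
          (a * x) ^ n / (n.factorial : ℝ) * Real.exp a)) volume 0 1 :=
    (rpow_ii hs 0 1).mul_continuousOn (by fun_prop)
  have h1 : hI s (-a) ≤ ∫ x in (0:ℝ)..1, s * x ^ (s - 1) *
        (∑ k ∈ Finset.range n, (a * x) ^ k / (k.factorial : ℝ) +
          (a * x) ^ n / (n.factorial : ℝ) * Real.exp a) := by
    unfold hI
    refine intervalIntegral.integral_mono_on zero_le_one i1 i2 fun x hx => ?_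
    have h2 : 0 ≤ s * x ^ (s - 1) := mul_nonneg hs.le (Real.rpow_nonneg hx.1 _)
    refine mul_le_mul_of_nonneg_left ?_ h2
    rw [show -(-a * x) = a * x by ring]
    exact exp_le_taylor n (a * x) (mul_nonneg ha hx.1) (mul_le_of_le_one_right ha hx.2)
  refine h1.trans (le_of_eq ?_)
  have e2 : ∀ x : ℝ, s * x ^ (s - 1) * (∑ k ∈ Finset.range n, (a * x) ^ k / (k.factorial : ℝ) +
          (a * x) ^ n / (n.factorial : ℝ) * Real.exp a) =
      ∑ k ∈ Finset.range n, a ^ k / (k.factorial : ℝ) * (s * x ^ (s - 1) * x ^ k) +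
        a ^ n / (n.factorial : ℝ) * Real.exp a * (s * x ^ (s - 1) * x ^ n) := by
    intro x
    rw [mul_add, Finset.mul_sum]
    congr 1
    · refine Finset.sum_congr rfl fun k _ => ?_
      rw [mul_pow]
      ring
    · rw [mul_pow]
      ring
  simp_rw [e2]
  have ii : ∀ k : ℕ, IntervalIntegrable (fun x : ℝ => s * x ^ (s - 1) * x ^ k) volume 0 1 :=
    fun k => (rpow_ii hs 0 1).mul_continuousOn (by fun_prop)
  rw [intervalIntegral.integral_add, intervalIntegral.integral_finsetSum fun k _ => (ii k).const_mul _]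
  · rw [intervalIntegral.integral_const_mul, int_mono hs]
    congr 1
    · refine Finset.sum_congr rfl fun k _ => ?_
      rw [intervalIntegral.integral_const_mul, int_mono hs]
    · ring
  · have h5 := IntervalIntegrable.sum (Finset.range n)
      (f := fun (k : ℕ) (x : ℝ) => a ^ k / (k.factorial : ℝ) * (s * x ^ (s - 1) * x ^ k))
      (μ := volume) (a := 0) (b := 1) fun k _ => (ii k).const_mul _
    have h6 : (fun x : ℝ => ∑ k ∈ Finset.range n, a ^ k / (k.factorial : ℝ) * (s * x ^ (s - 1) * x ^ k)) =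
        ∑ k ∈ Finset.range n, fun x : ℝ => a ^ k / (k.factorial : ℝ) * (s * x ^ (s - 1) * x ^ k) := by
      ext x
      rw [Finset.sum_apply]
    rw [h6]
    exact h5
  · exact (ii n).const_mul _

lemma exp_328 : Real.exp (82 / 25) ≤ 27 := by
  have h1 := exp_lo (u := 82 / 25) (by norm_num) 15 (by decide)
  simp only [Finset.sum_range_succ, Finset.sum_range_zero, Nat.factorial] at h1
  have h2 : Real.exp (82 / 25) = (Real.exp (-(82 / 25)))⁻¹ := by rw [Real.exp_neg, inv_inv]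
  rw [h2, inv_le_comm₀ (Real.exp_pos _) (by norm_num)]
  refine le_trans ?_ h1
  norm_num

/-- the first moment, upper bound -/
theorem first_upperG : ∀ᶠ T : ℝ in atTop, ∫ t in (0:ℝ)..T, zn (1 / 2) t ^ (2 / ((2:ℕ):ℝ)) ≤
      (559 / 250) * aF (1 / ((2:ℕ):ℝ)) / Real.Gamma ((1 / ((2:ℕ):ℝ)) ^ 2 + 1) * MM 2 T := by
  refine upperG' (δ := 41 / 25) le_rfl (by norm_num) ?_
  have h1 := hI_up (s := (1 / ((2:ℕ):ℝ)) ^ 2) (a := 2 * (41 / 25)) (by norm_num) (by norm_num) 16 (by decide)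
  have h4 := hI_neg_up (s := (1 / ((2:ℕ):ℝ)) ^ 2) (a := 2 * (41 / 25)) (by norm_num) (by norm_num) 20
  have h2 := exp_up (u := 41 / 50) (by norm_num) 10 (by decide)
  have h3 := exp_lo (u := 41 / 50) (by norm_num) 9 (by decide)
  have h6 := exp_328
  simp only [Finset.sum_range_succ, Finset.sum_range_zero, Nat.factorial] at h1 h2 h3 h4
  have e1 : Real.exp (2 / ((2:ℕ):ℝ) * (41 / 25) / 2) = (Real.exp (-(41 / 50)))⁻¹ := by
    rw [Real.exp_neg, inv_inv]; congr 1; norm_num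
  have e2 : Real.exp (-(2 / ((2:ℕ):ℝ) * (41 / 25 + 41 / 25))) = Real.exp (-(41 / 50)) ^ 4 := by
    rw [← Real.exp_nat_mul]; congr 1; norm_num
  have e3 : Real.exp (-(2 / ((2:ℕ):ℝ) * (41 / 25))) = Real.exp (-(41 / 50)) ^ 2 := by
    rw [← Real.exp_nat_mul]; congr 1; norm_num
  rw [e1, e2, e3]
  have e5 : (2:ℝ) * (41 / 25) = 82 / 25 := by norm_num
  rw [e5] at h1 h4 ⊢
  set q := Real.exp (-(41 / 50)) with hq
  set H := hI ((1 / ((2:ℕ):ℝ)) ^ 2) (82 / 25) with hH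
  set H' := hI ((1 / ((2:ℕ):ℝ)) ^ 2) (-(82 / 25)) with hH'
  have hq0 : 0 < q := Real.exp_pos _
  have hq1 : q ≤ 88087 / 200000 := h2.trans (by norm_num)
  have hq2 : 88086 / 200000 ≤ q := le_trans (by norm_num) h3
  have hH1 : H ≤ 671108 / 1000000 := h1.trans (by norm_num)
  have hH2 : H' ≤ 32523 / 10000 := by
    refine h4.trans ?_
    have : Real.exp (82 / 25) ≤ 27 := h6
    norm_num
    linarith
  have hH0 : 0 ≤ q ^ 4 := by positivity
  have hq3 : q ^ 3 ≤ (88087 / 200000) ^ 3 := pow_le_pow_left₀ hq0.le hq1 3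
  have hq4 : q ^ 4 ≤ (88087 / 200000) ^ 4 := pow_le_pow_left₀ hq0.le hq1 4
  have h7 : q ^ 4 * H' ≤ (88087 / 200000) ^ 4 * (32523 / 10000) :=
    (mul_le_mul_of_nonneg_left hH2 hH0).trans (mul_le_mul_of_nonneg_right hq4 (by norm_num))
  have key : H + q ^ 4 * H' < 559 / 250 * (q - q ^ 3) := by
    norm_num at hq3 h7
    linarith
  have e6 : q⁻¹ * (H + q ^ 4 * H') = (H + q ^ 4 * H') / q := by field_simp
  rw [e6, div_lt_iff₀ hq0]
  calc H + q ^ 4 * H' < 559 / 250 * (q - q ^ 3) := key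
    _ = _ := by ring

/-- the first moment, lower bound -/
theorem first_lowerG : ∀ᶠ T : ℝ in atTop,
    (523 / 1000) * aF (1 / ((2:ℕ):ℝ)) / Real.Gamma ((1 / ((2:ℕ):ℝ)) ^ 2 + 1) * MM 2 T ≤
      ∫ t in (0:ℝ)..T, zn (1 / 2) t ^ (2 / ((2:ℕ):ℝ)) := by
  refine lowerG' (x := 82 / 25) (y := 36 / 25) le_rfl (by norm_num) (by norm_num) ?_
  have h1 := hI_lo (s := (1 / ((2:ℕ):ℝ)) ^ 2) (a := 164 / 25) (by norm_num) (by norm_num) 27 (by decide)
  have h4 := hI_neg_up (s := (1 / ((2:ℕ):ℝ)) ^ 2) (a := 72 / 25) (by norm_num) (by norm_num) 18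
  have h2 := exp_up (u := 82 / 25) (by norm_num) 16 (by decide)
  have h3 := exp_up (u := 118 / 25) (by norm_num) 20 (by decide)
  have h6 : Real.exp (72 / 25) ≤ 27 :=
    (Real.exp_le_exp.mpr (by norm_num : (72:ℝ) / 25 ≤ 82 / 25)).trans exp_328
  simp only [Finset.sum_range_succ, Finset.sum_range_zero, Nat.factorial] at h1 h2 h3 h4
  have e1 : Real.exp (-(2 / ((2:ℕ):ℝ) * (82 / 25))) = Real.exp (-(82 / 25)) := by
    congr 1; norm_num
  have e2 : Real.exp (-(2 / ((2:ℕ):ℝ) * (82 / 25 + 36 / 25))) = Real.exp (-(118 / 25)) := by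
    congr 1; norm_num
  rw [e1, e2, show (2:ℝ) * (82 / 25) = 164 / 25 by norm_num, show (2:ℝ) * (36 / 25) = 72 / 25 by norm_num]
  set q := Real.exp (-(82 / 25)) with hq
  set r := Real.exp (-(118 / 25)) with hr
  set H := hI ((1 / ((2:ℕ):ℝ)) ^ 2) (164 / 25) with hH
  set H' := hI ((1 / ((2:ℕ):ℝ)) ^ 2) (-(72 / 25)) with hH'
  have hr0 : 0 < r := Real.exp_pos _
  have hq1 : q ≤ 37630 / 1000000 := h2.trans (by norm_num)
  have hr1 : r ≤ 8918 / 1000000 := h3.trans (by norm_num)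
  have hH1 : 566314 / 1000000 ≤ H := le_trans (by norm_num) h1
  have hH2 : H' ≤ 26382 / 10000 := by
    refine h4.trans ?_
    norm_num
    linarith
  have h7 : r * H' ≤ 8918 / 1000000 * (26382 / 10000) :=
    (mul_le_mul_of_nonneg_left hH2 hr0.le).trans (mul_le_mul_of_nonneg_right hr1 (by norm_num))
  norm_num at h7 ⊢
  linarith

end Pool.Agent.TH526.FM
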